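import Pool.Agent.Lib.MP_7a2af1_al.Mg.G001

/-!
# Mixed radix records
-/

set_option autoImplicit false

namespace Pool.Agent.Lib.MP_7a2af1_al

universe u v

/-- PROOF: induction on `L`, for all `c`. `[]`: `n = 1`. `B :: L`: the block `a ↦ (B.f a, c ^ (a : ℕ))`, followed by the list for `L` and `c ^ B.p`;
`c ^ a * (c ^ p) ^ j = c ^ (a + p * j)`; `Fin p × Fin n ≃ Fin (p * n)`, `(a, j) ↦ a + p * j` (as in the proof of `exists_cyclic`, file `ML/A4`; e.g. `finProdFinEquiv` after `Prod.swap`). -/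
theorem exists_record {G : Type u} {C : Type v} [Group G] [Group C] (L : List (Blk G)) (c : C) :
    ∃ (L' : List (Blk (G × C))) (e : Idx L' ≃ Idx L)
      (r : Idx L ≃ Fin (L.map Blk.p).prod), (PrimeBlks L → PrimeBlks L') ∧
      ∀ y, ev L' y = (ev L (e y), c ^ (r (e y) : ℕ)) := by
  induction L generalizing c with
  | nil =>
    have h1 : (([] : List (Blk G)).map Blk.p).prod = 1 := by simp
    refine ⟨[], Equiv.refl Unit, (Equiv.ofUnique Unit (Fin 1)).trans (finCongr h1.symm),
      fun _ B hB => absurd hB List.not_mem_nil, fun y => ?_⟩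
    have h2 : ((((Equiv.ofUnique Unit (Fin 1)).trans (finCongr h1.symm))
        ((Equiv.refl Unit) y) : Fin _) : ℕ) = 0 := by
      have := (((Equiv.ofUnique Unit (Fin 1)).trans (finCongr h1.symm))
        ((Equiv.refl Unit) y)).2
      omega
    refine Prod.ext rfl ?_
    exact (pow_zero c).symm.trans (congrArg (fun k => c ^ k) h2.symm)
  | cons B L ih =>
    obtain ⟨L', e, r, hL', he⟩ := ih (c ^ B.p)
    have hprod : (L.map Blk.p).prod * B.p = ((B :: L).map Blk.p).prod := by
      rw [List.map_cons, List.prod_cons, mul_comm]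
    let e1 : Idx ((⟨B.p, fun a => (B.f a, c ^ (a : ℕ))⟩ : Blk (G × C)) :: L') ≃ Idx (B :: L) :=
      (Equiv.refl (Fin B.p)).prodCongr e
    let r1 : Idx (B :: L) ≃ Fin (L.map Blk.p).prod × Fin B.p :=
      (Equiv.prodComm (Fin B.p) (Idx L)).trans (Equiv.prodCongr r (Equiv.refl _))
    refine ⟨⟨B.p, fun a => (B.f a, c ^ (a : ℕ))⟩ :: L', e1,
      (r1.trans finProdFinEquiv).trans (finCongr hprod), ?_, ?_⟩
    · intro hP B' hB'
      rcases List.mem_cons.1 hB' with h2 | h2
      · rw [h2]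
        exact hP B List.mem_cons_self
      · exact hL' (fun B'' hB'' => hP B'' (List.mem_cons_of_mem _ hB'')) B' h2
    · rintro ⟨i, y⟩
      have h3 : ((((r1.trans finProdFinEquiv).trans (finCongr hprod)) (e1 (i, y)) :
          Fin ((B :: L).map Blk.p).prod) : ℕ) = (i : ℕ) + B.p * (r (e y) : ℕ) := rfl
      have h4 : ev (B :: L) (e1 (i, y)) = B.f i * ev L (e y) := rfl
      rw [h3, h4, ev_cons, he, pow_add, pow_mul]
      rfl

end Pool.Agent.Lib.MP_7a2af1_al
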