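import Pool.Agent.Lib.MP_7a2af1_al.Mg.G007
import Pool.Agent.Lib.MP_7a2af1_al.WR.V1
import Pool.Agent.Lib.MP_7a2af1_al.ML.A7a

/-!
# Theorem V
-/

set_option autoImplicit false

namespace Pool.Agent.Lib.MP_7a2af1_al

universe u v

private theorem V2_inr {G : Type u} [Group G] {X : Type v} [MulAction G X] {μ : ℕ} (x₀ : X)
    (ρ : G) : pr x₀ (SemidirectProduct.inr ρ : Wr G X μ) = (ρ • x₀, 1) := by
  simp [pr]

private theorem V2_inl_mul {G : Type u} [Group G] {X : Type v} [MulAction G X] {μ : ℕ} (x₀ : X)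
    (f : X → Multiplicative (ZMod μ)) (γ : Wr G X μ) :
    pr x₀ ((SemidirectProduct.inl f : Wr G X μ) * γ) =
      ((pr x₀ γ).1, f (pr x₀ γ).1 * (pr x₀ γ).2) := by
  rw [pr_mul]
  simp

private theorem V2_inr_mul {G : Type u} [Group G] {X : Type v} [MulAction G X] {μ : ℕ} (x₀ : X)
    (ρ : G) (γ : Wr G X μ) :
    pr x₀ ((SemidirectProduct.inr ρ : Wr G X μ) * γ) = (ρ • (pr x₀ γ).1, (pr x₀ γ).2) := by
  rw [pr_mul]
  simp

private theorem V2_bij {J : Type v} {G : Type u} {P μ : ℕ} [NeZero P] [NeZero μ] (f : J → G)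
    (cl : J → Fin μ) (hcl : Function.Bijective fun x => (f x, cl x)) (ρ : J → ZMod P) :
    Function.Bijective fun y : Fin P × J => ((f y.2, (((y.1 : ℕ) : ZMod P) + ρ y.2,
      Multiplicative.ofAdd (((cl y.2 : ℕ) : ZMod μ)))) : G × (ZMod P × Multiplicative (ZMod μ))) := by
  constructor
  · rintro ⟨t, i⟩ ⟨t', i'⟩ h
    have h1 : f i = f i' := congrArg Prod.fst h
    have h2 : ((t : ℕ) : ZMod P) + ρ i = ((t' : ℕ) : ZMod P) + ρ i' :=
      congrArg (fun z => z.2.1) h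
    have h3 : Multiplicative.ofAdd (((cl i : ℕ) : ZMod μ)) =
      Multiplicative.ofAdd (((cl i' : ℕ) : ZMod μ)) := congrArg (fun z => z.2.2) h
    have h4 : ((cl i : ℕ) : ZMod μ) = ((cl i' : ℕ) : ZMod μ) := h3
    have h5 : cl i = cl i' := by
      apply Fin.ext
      have h6 := congrArg ZMod.val h4
      rwa [ZMod.val_natCast, ZMod.val_natCast, Nat.mod_eq_of_lt (cl i).2,
        Nat.mod_eq_of_lt (cl i').2] at h6
    have h6 : i = i' := hcl.1 (Prod.ext h1 h5)
    rw [← h6] at h2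
    have h7 : ((t : ℕ) : ZMod P) = ((t' : ℕ) : ZMod P) := add_right_cancel h2
    have h8 : t = t' := by
      apply Fin.ext
      have h9 := congrArg ZMod.val h7
      rwa [ZMod.val_natCast, ZMod.val_natCast, Nat.mod_eq_of_lt t.2,
        Nat.mod_eq_of_lt t'.2] at h9
    rw [h6, h8]
  · rintro ⟨g, x, u⟩
    obtain ⟨i, hi⟩ := hcl.2 (g, (⟨(Multiplicative.toAdd u).val, ZMod.val_lt _⟩ : Fin μ))
    have h1 : f i = g := congrArg Prod.fst hi
    have h2 : cl i = (⟨(Multiplicative.toAdd u).val, ZMod.val_lt _⟩ : Fin μ) :=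
      congrArg Prod.snd hi
    refine ⟨(⟨(x - ρ i).val, ZMod.val_lt _⟩, i), ?_⟩
    refine Prod.ext h1 (Prod.ext ?_ ?_)
    · show (((x - ρ i).val : ℕ) : ZMod P) + ρ i = x
      rw [ZMod.natCast_zmod_val, sub_add_cancel]
    · show Multiplicative.ofAdd (((cl i : ℕ) : ZMod μ)) = u
      rw [h2]
      show Multiplicative.ofAdd ((((Multiplicative.toAdd u).val : ℕ) : ZMod μ)) = u
      rw [ZMod.natCast_zmod_val]
      rfl

/-- PROOF. `m` from `HasU.multiples`. Let `μ = m * t`, `L` the list, `P = μ * Nat.card G = (L.map Blk.p).prod` (`card_Idx`, sum over the elements of the fibres). `X = ZMod P`, `C = Multiplicative (ZMod P)` acts on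
`X` by translations, `H = Wr C X μ`, `x₀ = 0`. `cl` from `exists_numbering` (file `ML/A7a`) for `ev L` and `μ`. `c = ofAdd 1 : C`, `inr c : H`. `exists_record` for `L` and `inr c : H`: inner blocks `L'` in
`G × H`, `ev L' y = (ev L i, inr (c ^ r i))`. Let `f : X → Multiplicative (ZMod μ)` be the function with `f (r i) = ofAdd (cl i)` (`r : Idx L ≃ Fin P`, `Fin P ≃ ZMod P`), `F = (1, inl f)`, `c' = F⁻¹ (1, inr c) F`, `L₁` from
`exists_cyclic c' P`. Blocks `L₁ ++ L'` (`exists_append`), `hasP_of_transversal` with `π (g, h) = (g, pr x₀ h)`, `Δ = St C μ x₀`, `j d = (1, d)`, `pr_eq_iff`. The bijection: `F * (ev L₁ x * ev L' y) = (1, inr c) ^ t * F * ev L' y`, and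
`π (this) = (ev L i, (r i + t, ofAdd (cl i)))`: bijective in `(t, i)`; and `π (F * γ)` is obtained from `π γ` by a bijection (`pr_mul`). `Δ` is a subgroup of the elements with `right = 1` (translations are free: `right • 0 = 0` implies
`right = 1`), so it is commutative: `hasP_of_comm`, or `hasM_St` (the stabiliser of `0` in `C` is trivial) and `hasM_of_transversal`. -/
theorem direct_hasM {G : Type u} [Group G] [Finite G] (hU : HasU G) :
    ∃ m : ℕ, 1 ≤ m ∧ ∀ μ : ℕ, 1 ≤ μ → m ∣ μ →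
      HasM (G × Wr (Multiplicative (ZMod (μ * Nat.card G))) (ZMod (μ * Nat.card G)) μ) := by
  classical
  obtain ⟨m, hm, hmul⟩ := hU.multiples
  refine ⟨m, hm, ?_⟩
  intro μ hμ hdvd
  obtain ⟨t, ht⟩ := hdvd
  have ht1 : 1 ≤ t := by
    rcases Nat.eq_zero_or_pos t with h | h
    · rw [h, mul_zero] at ht
      omega
    · exact h
  obtain ⟨L, hL, hcount⟩ := hmul t ht1
  rw [← ht] at hcount
  obtain ⟨cl, hcl⟩ := exists_numbering (ev L) μ hcount
  have hG : 1 ≤ Nat.card G := Nat.card_pos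
  obtain ⟨P, hP⟩ : ∃ P, P = μ * Nat.card G := ⟨_, rfl⟩
  rw [← hP]
  have hP1 : 1 ≤ P := by
    rw [hP]
    exact Nat.mul_pos hμ hG
  have hμ0 : NeZero μ := ⟨by omega⟩
  have hP0 : NeZero P := ⟨by omega⟩
  have hprod : (L.map Blk.p).prod = P := by
    rw [← card_Idx, Nat.card_congr (Equiv.ofBijective _ hcl), Nat.card_prod, Nat.card_fin, hP,
      mul_comm]
  obtain ⟨c, hc⟩ : ∃ c : Wr (Multiplicative (ZMod P)) (ZMod P) μ,
    c = SemidirectProduct.inr (Multiplicative.ofAdd (1 : ZMod P)) := ⟨_, rfl⟩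
  have hck : ∀ k : ℕ, c ^ k = SemidirectProduct.inr (Multiplicative.ofAdd ((k : ℕ) : ZMod P)) := by
    intro k
    rw [hc, ← map_pow, ← ofAdd_nsmul, nsmul_eq_mul, mul_one]
  obtain ⟨L', e, r, hL', hev⟩ := exists_record L c
  have hρ : Function.Bijective fun i : Idx L => (((r i : ℕ) : ZMod P)) := by
    constructor
    · intro i i' h
      have h1 := congrArg ZMod.val h
      simp only [ZMod.val_natCast] at h1
      have h2 : (r i : ℕ) < P := hprod ▸ (r i).2
      have h3 : (r i' : ℕ) < P := hprod ▸ (r i').2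
      rw [Nat.mod_eq_of_lt h2, Nat.mod_eq_of_lt h3] at h1
      exact r.injective (Fin.ext h1)
    · intro x
      refine ⟨r.symm ⟨x.val, by rw [hprod]; exact ZMod.val_lt _⟩, ?_⟩
      simp only [Equiv.apply_symm_apply]
      exact ZMod.natCast_zmod_val x
  obtain ⟨E, hE⟩ : ∃ E : Idx L ≃ ZMod P, ∀ i, E i = ((r i : ℕ) : ZMod P) :=
    ⟨Equiv.ofBijective _ hρ, fun i => rfl⟩
  obtain ⟨f, hf⟩ : ∃ f : ZMod P → Multiplicative (ZMod μ),
      ∀ i, f (((r i : ℕ) : ZMod P)) = Multiplicative.ofAdd (((cl i : ℕ) : ZMod μ)) := by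
    refine ⟨fun x => Multiplicative.ofAdd (((cl (E.symm x) : ℕ) : ZMod μ)), fun i => ?_⟩
    simp only
    rw [← hE i, Equiv.symm_apply_apply]
  obtain ⟨F, hF⟩ : ∃ F : G × Wr (Multiplicative (ZMod P)) (ZMod P) μ,
    F = (1, SemidirectProduct.inl f) := ⟨_, rfl⟩
  obtain ⟨L₁, hL₁, e₁, he₁⟩ := exists_cyclic
    (F⁻¹ * ((1, c) : G × Wr (Multiplicative (ZMod P)) (ZMod P) μ) * F⁻¹⁻¹) P hP1
  obtain ⟨e₂, he₂⟩ := exists_append L₁ L'
  obtain ⟨π, hπd⟩ : ∃ π : G × Wr (Multiplicative (ZMod P)) (ZMod P) μ →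
    G × (ZMod P × Multiplicative (ZMod μ)), ∀ a, π a = (a.1, pr (0 : ZMod P) a.2) :=
    ⟨fun a => (a.1, pr (0 : ZMod P) a.2), fun a => rfl⟩
  have hπ : ∀ a b, π a = π b ↔ ∃ d : St (Multiplicative (ZMod P)) μ (0 : ZMod P), b = a *
      ((MonoidHom.inr G (Wr (Multiplicative (ZMod P)) (ZMod P) μ)).comp
        (St (Multiplicative (ZMod P)) μ (0 : ZMod P)).subtype) d := by
    intro a b
    rw [hπd, hπd]
    constructor
    · intro h
      have h1 : a.1 = b.1 := (Prod.ext_iff.1 h).1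
      have h2 : pr (0 : ZMod P) a.2 = pr (0 : ZMod P) b.2 := (Prod.ext_iff.1 h).2
      obtain ⟨d, hd⟩ := (pr_eq_iff (0 : ZMod P) a.2 b.2).1 h2
      refine ⟨d, Prod.ext ?_ ?_⟩
      · show b.1 = a.1 * 1
        rw [mul_one, h1]
      · exact hd
    · rintro ⟨d, hd⟩
      have h1 : b.1 = a.1 * 1 := congrArg Prod.fst hd
      have h2 : b.2 = a.2 * (St (Multiplicative (ZMod P)) μ (0 : ZMod P)).subtype d :=
        congrArg Prod.snd hd
      rw [mul_one] at h1
      rw [h1, (pr_eq_iff (0 : ZMod P) a.2 b.2).2 ⟨d, h2⟩]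
  have hπF : ∀ a b, π a = π b ↔ π (F * a) = π (F * b) := by
    intro a b
    rw [hπ a b, hπ (F * a) (F * b)]
    constructor
    · rintro ⟨d, hd⟩
      exact ⟨d, by rw [hd, mul_assoc]⟩
    · rintro ⟨d, hd⟩
      refine ⟨d, ?_⟩
      rw [mul_assoc] at hd
      exact mul_left_cancel hd
  have hkey : ∀ x, π (F * ev (L₁ ++ L') x) = (ev L (e (e₂ x).2),
      (((e₁ (e₂ x).1 : ℕ) : ZMod P) + ((r (e (e₂ x).2) : ℕ) : ZMod P),
        Multiplicative.ofAdd (((cl (e (e₂ x).2) : ℕ) : ZMod μ)))) := by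
    intro x
    have h1 : F * ev (L₁ ++ L') x =
        ((1, c) : G × Wr (Multiplicative (ZMod P)) (ZMod P) μ) ^ (e₁ (e₂ x).1 : ℕ) *
          (F * ev L' (e₂ x).2) := by
      rw [he₂, he₁, conj_pow]
      group
    rw [h1, hπd, hev, hF]
    have h2 : ((1, c) : G × Wr (Multiplicative (ZMod P)) (ZMod P) μ) ^ (e₁ (e₂ x).1 : ℕ) =
        (1, c ^ (e₁ (e₂ x).1 : ℕ)) := by
      rw [Prod.pow_mk, one_pow]
    rw [h2]
    simp only [Prod.mk_mul_mk, one_mul]
    rw [hck, hck, V2_inr_mul, V2_inl_mul, V2_inr]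
    have h3 : (Multiplicative.ofAdd ((r (e (e₂ x).2) : ℕ) : ZMod P) • (0 : ZMod P)) =
        ((r (e (e₂ x).2) : ℕ) : ZMod P) := by
      show ((r (e (e₂ x).2) : ℕ) : ZMod P) + 0 = _
      rw [add_zero]
    simp only [h3, hf, mul_one]
    rfl
  have hbij : Function.Bijective fun x => π (F * ev (L₁ ++ L') x) := by
    have h1 := V2_bij (P := P) (ev L) cl hcl (fun i => ((r i : ℕ) : ZMod P))
    have h2 := h1.comp ((e₂.trans (Equiv.prodCongr e₁ e)).bijective)
    have h3 : (fun x => π (F * ev (L₁ ++ L') x)) = (fun y : Fin P × Idx L =>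
        ((ev L y.2, (((y.1 : ℕ) : ZMod P) + ((r y.2 : ℕ) : ZMod P),
      Multiplicative.ofAdd (((cl y.2 : ℕ) : ZMod μ)))) : G × (ZMod P × Multiplicative (ZMod μ)))) ∘
        (e₂.trans (Equiv.prodCongr e₁ e)) := by
      funext x
      rw [hkey x]
      rfl
    rw [h3]
    exact h2
  refine hasM_of_transversal _ ?_ π hπ (L₁ ++ L') (hL₁.append (hL' hL)).minL ?_
    (hasM_St (0 : ZMod P)
      (hasP_of_comm (MulAction.stabilizer (Multiplicative (ZMod P)) (0 : ZMod P))).hasM)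
  · intro a b hab
    have h1 : (St (Multiplicative (ZMod P)) μ (0 : ZMod P)).subtype a =
      (St (Multiplicative (ZMod P)) μ (0 : ZMod P)).subtype b := congrArg Prod.snd hab
    exact Subgroup.subtype_injective _ h1
  · intro γ
    obtain ⟨x, hx, hu⟩ := hbij.existsUnique (π (F * γ))
    refine ⟨x, (hπF _ _).2 hx, fun y hy => hu y ((hπF _ _).1 hy)⟩

end Pool.Agent.Lib.MP_7a2af1_al
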