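import Pool.Agent.Lib.MP_7a2af1_al.Mg.G007

/-!
# Theorem W
-/

set_option autoImplicit false

namespace Pool.Agent.Lib.MP_7a2af1_al

universe u v

/-- PROOF. `m'` from `HasU.multiples`, `m = m' * Nat.card G`. Let `μ = m * s`; `Nat.card G = Nat.card K * Nat.card (orbit)` (`MulAction.card_orbit_mul_card_stabilizer_eq_card_group`, or
`Subgroup.card_subgroup_dvd_card`), so `t = s * (Nat.card G / Nat.card K)` satisfies `m' * t * Nat.card K = μ`. `L` for this `t`, `L'`, `N`, `e` from `exists_numbered x₀ μ L`. `hasM_of_transversal` with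
`Γ = Wr G X μ`, `Δ = St G μ x₀`, `π = pr x₀`, `pr_eq_iff`, `hasM_St`. `hb`: for `γ` let `g = γ.right`, `z = g • x₀`; the fibre over `z` has `μ` elements (`ncard_orbit`), so there is exactly one `i`
in it with `N i = (toAdd (γ.left z)).val`; `N i < μ` and `ZMod.natCast_zmod_val`, `ZMod.natCast_eq_natCast_iff`. -/
theorem wreath_hasM {G : Type u} [Group G] [Finite G] (hU : HasU G) :
    ∃ m : ℕ, 1 ≤ m ∧ ∀ (X : Type v) [Finite X] [MulAction G X] (x₀ : X),
      HasM (MulAction.stabilizer G x₀) → ∀ μ : ℕ, 1 ≤ μ → m ∣ μ → HasM (Wr G X μ) := by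
  classical
  obtain ⟨m', hm', hmul⟩ := hU.multiples
  have hG : 1 ≤ Nat.card G := Nat.card_pos
  refine ⟨m' * Nat.card G, Nat.mul_pos hm' hG, ?_⟩
  intro X _ _ x₀ hK μ hμ hdvd
  obtain ⟨s, hs⟩ := hdvd
  obtain ⟨q, hq⟩ := Subgroup.card_subgroup_dvd_card (MulAction.stabilizer G x₀)
  have hs1 : 1 ≤ s := by
    rcases Nat.eq_zero_or_pos s with h | h
    · rw [h, mul_zero] at hs
      omega
    · exact h
  have hq1 : 1 ≤ q := by
    rcases Nat.eq_zero_or_pos q with h | h
    · rw [h, mul_zero] at hq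
      omega
    · exact h
  obtain ⟨L, hL, hcount⟩ := hmul (s * q) (Nat.mul_pos hs1 hq1)
  have hcard : ∀ g : G, {i : Idx L | ev L i • x₀ = g • x₀}.ncard = μ := by
    intro g
    rw [ncard_orbit x₀ L (m' * (s * q)) hcount g, hs, hq]
    ring
  obtain ⟨L', N, e, hP, hN, hpr⟩ := exists_numbered x₀ μ L
  have : NeZero μ := ⟨by omega⟩
  refine hasM_of_transversal (St G μ x₀).subtype (Subgroup.subtype_injective _) (pr x₀)
    (pr_eq_iff x₀) L' (hP hL).minL ?_ (hasM_St x₀ hK)
  intro γ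
  have hbij := hN (γ.right • x₀)
  rw [hcard γ.right] at hbij
  have hlt : (Multiplicative.toAdd (γ.left (γ.right • x₀))).val < μ := ZMod.val_lt _
  obtain ⟨i, hi, hNi⟩ := hbij.surjOn (show (Multiplicative.toAdd (γ.left (γ.right • x₀))).val ∈
    Set.Iio μ from hlt)
  refine ⟨e.symm i, ?_, ?_⟩
  · simp only
    rw [hpr, Equiv.apply_symm_apply, hNi, ZMod.natCast_zmod_val]
    have hi' : ev L i • x₀ = γ.right • x₀ := hi
    rw [hi']
    rfl
  · intro y hy
    rw [hpr] at hy
    have h1 : ev L (e y) • x₀ = γ.right • x₀ := congrArg Prod.fst hy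
    have h2 : Multiplicative.ofAdd ((N (e y) : ℕ) : ZMod μ) = γ.left (γ.right • x₀) :=
      congrArg Prod.snd hy
    have h3 : N (e y) < μ := hbij.mapsTo h1
    have h4 : N (e y) = N i := by
      rw [hNi, ← h2]
      show N (e y) = ((N (e y) : ℕ) : ZMod μ).val
      rw [ZMod.val_natCast, Nat.mod_eq_of_lt h3]
    have h5 : e y = i := hbij.injOn h1 hi h4
    rw [← h5, Equiv.symm_apply_apply]

end Pool.Agent.Lib.MP_7a2af1_al
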